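import Mathlib

set_option autoImplicit false

universe u

namespace Pool.Agent.Results.MP_1ad72b_al.AllUncountable

open Set Function

section PL
variable {M : Type} [AddCommGroup M] [LinearOrder M] [IsOrderedAddMonoid M]

def Dv (M : Type) [AddCommGroup M] : Prop := ∀ n : ℤ, n ≠ 0 → ∀ c : M, ∃ x, n • x = c

def PL (φ : M → M) : Prop := ∃ (F : Set M) (L : Set (ℤ × M)), F.Finite ∧ L.Finite ∧
  ∀ u v, Disjoint F (Ioo u v) → ∃ l ∈ L, ∀ x ∈ Icc u v, φ x = l.1 • x + l.2

omit [IsOrderedAddMonoid M] in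
theorem PL.aff (n : ℤ) (c : M) : PL fun x => n • x + c :=
  ⟨∅, {(n, c)}, finite_empty, finite_singleton _, fun _ _ _ => ⟨_, rfl, fun _ _ => rfl⟩⟩

omit [IsOrderedAddMonoid M] in
theorem PL.add {φ ψ : M → M} (h : PL φ) (h' : PL ψ) : PL fun x => φ x + ψ x := by
  obtain ⟨F, L, h1, h2, h3⟩ := h
  obtain ⟨F', L', k1, k2, k3⟩ := h'
  refine ⟨F ∪ F', image2 (· + ·) L L', h1.union k1, h2.image2 _ k2, fun u v h => ?_⟩
  obtain ⟨l, l1, l2⟩ := h3 u v (disjoint_union_left.1 h).1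
  obtain ⟨m, m1, m2⟩ := k3 u v (disjoint_union_left.1 h).2
  exact ⟨_, mem_image2_of_mem l1 m1, fun x hx => by simp [l2 x hx, m2 x hx, add_smul]; abel⟩

omit [IsOrderedAddMonoid M] in
theorem PL.neg {φ : M → M} (h : PL φ) : PL fun x => -φ x := by
  obtain ⟨F, L, h1, h2, h3⟩ := h
  refine ⟨F, (-·) '' L, h1, h2.image _, fun u v h => ?_⟩
  obtain ⟨l, l1, l2⟩ := h3 u v h
  exact ⟨_, mem_image_of_mem _ l1, fun x hx => by simp [l2 x hx]; abel⟩

theorem PL.rev {φ : M → M} (h : PL φ) : PL fun x => φ (-x) := by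
  obtain ⟨F, L, h1, h2, h3⟩ := h
  refine ⟨(-·) '' F, (fun l => (-l.1, l.2)) '' L, h1.image _, h2.image _, fun u v h => ?_⟩
  obtain ⟨l, l1, l2⟩ := h3 (-v) (-u) (disjoint_left.2 fun z hz k =>
    disjoint_left.1 h (mem_image_of_mem _ hz) ⟨lt_neg.1 k.2, neg_lt.1 k.1⟩)
  exact ⟨_, mem_image_of_mem _ l1, fun x hx => by
    simp [l2 (-x) ⟨neg_le_neg hx.2, neg_le_neg hx.1⟩]⟩

theorem PL.sup (hd : Dv M) {φ ψ : M → M} (h : PL φ) (h' : PL ψ) : PL fun x => φ x ⊔ ψ x := by
  obtain ⟨F, L, h1, h2, h3⟩ := h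
  obtain ⟨F', L', k1, k2, k3⟩ := h'
  choose! d hd using hd
  refine ⟨(F ∪ F') ∪ image2 (fun l m => d (l.1 - m.1) (m.2 - l.2)) L L', L ∪ L',
    (h1.union k1).union (h2.image2 _ k2), h2.union k2, fun u v h => ?_⟩
  simp only [disjoint_union_left] at h
  obtain ⟨l, l1, l2⟩ := h3 u v h.1.1
  obtain ⟨m, m1, m2⟩ := k3 u v h.1.2
  suffices (∀ x ∈ Icc u v, 0 ≤ φ x - ψ x) ∨ ∀ x ∈ Icc u v, φ x - ψ x ≤ 0 from this.elim
    (fun k => ⟨l, Or.inl l1, fun x hx => (sup_eq_left.2 (sub_nonneg.1 (k x hx))).trans (l2 x hx)⟩)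
    fun k => ⟨m, Or.inr m1, fun x hx => (sup_eq_right.2 (sub_nonpos.1 (k x hx))).trans (m2 x hx)⟩
  have e : ∀ x ∈ Icc u v, φ x - ψ x = (l.1 - m.1) • x - (m.2 - l.2) := fun x hx => by
    rw [l2 x hx, m2 x hx, sub_smul]; abel
  by_cases k : l.1 - m.1 = 0
  · exact (le_total 0 (-(m.2 - l.2))).imp (fun c x hx => by simpa [e x hx, k] using c)
      fun c x hx => by simpa [e x hx, k] using c
  have z := disjoint_left.1 h.2 (mem_image2_of_mem l1 m1)
  have e := fun x hx => (e x hx).trans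
    ((congrArg (_ - ·) (hd _ k (m.2 - l.2)).symm).trans (smul_sub _ _ _).symm)
  simp only [mem_Ioo, not_and_or, not_lt] at z
  rcases z with z | z <;> rcases le_total 0 (l.1 - m.1) with s | s
  · exact Or.inl fun x hx => e x hx ▸ smul_nonneg s (sub_nonneg.2 (z.trans hx.1))
  · exact Or.inr fun x hx => e x hx ▸ smul_nonpos_of_nonpos_of_nonneg s (sub_nonneg.2 (z.trans hx.1))
  · exact Or.inr fun x hx => e x hx ▸ smul_nonpos_of_nonneg_of_nonpos s (sub_nonpos.2 (hx.2.trans z))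
  · exact Or.inl fun x hx => e x hx ▸ smul_nonneg_of_nonpos_of_nonpos s (sub_nonpos.2 (hx.2.trans z))

theorem PL.right [NoMaxOrder M] {φ : M → M} (h : PL φ) (u : M) :
    ∃ w, 0 < w ∧ ∃ n : ℤ, ∀ t, 0 ≤ t → t ≤ w → φ (u + t) = φ u + n • t := by
  obtain ⟨F, L, h1, -, h3⟩ := h
  obtain ⟨v, v1, v2⟩ : ∃ v, u < v ∧ Disjoint F (Ioo u v) := by
    rcases (F ∩ Ioi u).eq_empty_or_nonempty with e | e
    · obtain ⟨v, hv⟩ := exists_gt u
      exact ⟨v, hv, (disjoint_iff_inter_eq_empty.2 e).mono_right Ioo_subset_Ioi_self⟩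
    · obtain ⟨v, hv, k⟩ := exists_min_image _ id (h1.inter_of_left _) e
      exact ⟨v, hv.2, disjoint_left.2 fun z hz k' => k'.2.not_ge (k z ⟨hz, k'.1⟩)⟩
  obtain ⟨l, -, l2⟩ := h3 u v v2
  refine ⟨v - u, sub_pos.2 v1, l.1, fun t t1 t2 => ?_⟩
  rw [l2 u ⟨le_rfl, v1.le⟩, l2 _ ⟨le_add_of_nonneg_right t1, le_sub_iff_add_le'.1 t2⟩, smul_add]
  abel

theorem small (hd : Dv M) {y w : M} (hy : 0 < y) (hw : 0 < w) (n : ℤ) :
    ∃ t, 0 < t ∧ t ≤ w ∧ n • t < y := by
  have p : 0 < |n| + 1 := by positivity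
  obtain ⟨d, rfl⟩ := hd _ p.ne' y
  have q := pos_of_smul_pos_left hy p.le
  refine ⟨min w d, lt_min hw q, min_le_left _ _, ?_⟩
  exact ((smul_le_smul_of_nonneg_right (le_abs_self n) (lt_min hw q).le).trans
    (smul_le_smul_of_nonneg_left (min_le_right _ _) (abs_nonneg n))).trans_lt
    (smul_lt_smul_of_pos_right (lt_add_one _) q)

theorem PL.ge (hd : Dv M) [NoMaxOrder M] {φ : M → M} (h : PL φ) {u y : M}
    (k : ∀ x, u < x → y ≤ φ x) : y ≤ φ u := by
  obtain ⟨w, w1, n, w2⟩ := h.right u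
  refine not_lt.1 fun c => ?_
  obtain ⟨t, t1, t2, t3⟩ := small hd (sub_pos.2 c) w1 n
  exact (w2 t t1.le t2 ▸ k _ (lt_add_of_pos_right u t1)).not_gt (lt_sub_iff_add_lt'.1 t3)

theorem PL.eq (hd : Dv M) [NoMaxOrder M] {φ : M → M} (h : PL φ) {u y : M}
    (k : ∀ x, u < x → y ≤ φ x) (k' : ∀ x, x < u → φ x ≤ y) : φ u = y :=
  le_antisymm (by
    have := h.rev.neg.ge hd (u := -u) (y := -y) fun x hx => neg_le_neg (k' _ (neg_lt.1 hx))
    simpa using this) (h.ge hd k)

theorem PL.slope {φ : M → M} (h : PL φ) (k : ∀ u w, 0 < w → ∀ n : ℤ,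
    (∀ t, 0 ≤ t → t ≤ w → φ (u + t) = φ u + n • t) → n = 1) (x : M) : φ x = x + φ 0 := by
  obtain ⟨F, L, h1, -, h3⟩ := h
  have : ∀ m u v, u < v → (F ∩ Ioo u v).ncard = m → φ v - v = φ u - u := by
    intro m
    induction m using Nat.strong_induction_on with
    | _ m ih =>
      rintro u v huv rfl
      rcases (F ∩ Ioo u v).eq_empty_or_nonempty with e | ⟨z, z1, z2⟩
      · obtain ⟨l, -, l2⟩ := h3 u v (disjoint_iff_inter_eq_empty.2 e)
        have := k u _ (sub_pos.2 huv) l.1 fun t t1 t2 => by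
          rw [l2 u ⟨le_rfl, huv.le⟩, l2 _ ⟨le_add_of_nonneg_right t1, le_sub_iff_add_le'.1 t2⟩,
            smul_add]
          abel
        simp [l2 u ⟨le_rfl, huv.le⟩, l2 v ⟨huv.le, le_rfl⟩, this]
      · refine (ih _ (ncard_lt_ncard ⟨inter_subset_inter_right _ (Ioo_subset_Ioo_left z2.1.le),
          fun c => (c ⟨z1, z2⟩).2.1.ne rfl⟩ (h1.inter_of_left _)) z v z2.2 rfl).trans
          (ih _ (ncard_lt_ncard ⟨inter_subset_inter_right _ (Ioo_subset_Ioo_right z2.2.le),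
          fun c => (c ⟨z1, z2⟩).2.2.ne rfl⟩ (h1.inter_of_left _)) u z z2.1 rfl)
  rw [← sub_eq_iff_eq_add', ← sub_zero (φ 0)]
  rcases lt_trichotomy x 0 with c | rfl | c
  · exact (this _ _ _ c rfl).symm
  · rfl
  · exact this _ _ _ c rfl

theorem PL.inv (hd : Dv M) [NoMaxOrder M] {A B : M → M} (hA : PL A) (hB : PL B)
    (h1 : ∀ x y, B y < x → y ≤ A x) (h2 : ∀ x y, x < B y → A x ≤ y) (x : M) : A x = x + A 0 := by
  have e : ∀ x, B (A x) = x := fun x => hB.eq hd (fun y hy => not_lt.1 fun c => hy.not_ge (h1 _ _ c))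
    fun y hy => not_lt.1 fun c => hy.not_ge (h2 _ _ c)
  refine hA.slope (fun u w hw n hn => ?_) x
  have p : 0 ≤ n := by
    have := h1 (u + w) (A u) (by rw [e]; exact lt_add_of_pos_right u hw)
    rw [hn w hw.le le_rfl, le_add_iff_nonneg_right] at this
    exact not_lt.1 fun c => (smul_neg_of_neg_of_pos c hw).not_ge this
  obtain ⟨w', w1, m, w2⟩ := hB.right (A u)
  obtain ⟨t, t1, t2, t3⟩ := small hd w1 hw n
  have := w2 _ (smul_nonneg p t1.le) t3.le
  rw [← hn t t1.le t2, e, e, add_right_inj, smul_smul] at this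
  exact Int.eq_one_of_mul_eq_one_left p
    (smul_left_injective ℤ t1.ne' (this.symm.trans (one_smul _ _).symm))

end PL

abbrev Λ := ℚ ×ₗ ℚ
abbrev Ω (I : Type u) := I → Λ

/-- The lattice-ordered group terms over the constants `Λ` and the variables `I`, as functions. -/
inductive Tm (I : Type u) : (Ω I → Λ) → Prop
  | const (c : Λ) : Tm I fun _ => c
  | var (i : I) : Tm I fun p => p i
  | add {f g : Ω I → Λ} : Tm I f → Tm I g → Tm I (f + g)
  | neg {f : Ω I → Λ} : Tm I f → Tm I (-f)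
  | sup {f g : Ω I → Λ} : Tm I f → Tm I g → Tm I (f ⊔ g)

/-- The lattice-ordered group of all term functions in variables `I` over `Λ`. -/
def GG (I : Type u) : AddSubgroup (Ω I → Λ) where
  carrier := {f | Tm I f}
  zero_mem' := .const 0
  add_mem' := .add
  neg_mem' := .neg

variable {I : Type u}

noncomputable instance : Lattice (GG I) := Subtype.lattice (fun _ _ => .sup) fun f g hf hg => by
  have := (Tm.sup (.neg hf) (.neg hg)).neg
  rwa [neg_sup, neg_neg, neg_neg] at this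

instance : AddLeftMono (GG I) := ⟨fun c _ _ h p => add_le_add_right (h p) (c.1 p)⟩
instance : AddRightMono (GG I) := ⟨fun c _ _ h p => add_le_add_left (h p) (c.1 p)⟩

def X (i : I) : GG I := ⟨_, .var i⟩

theorem dep (f : GG I) : ∃ S : Finset I, ∀ p q : Ω I, (∀ i ∈ S, p i = q i) → f.1 p = f.1 q := by
  obtain ⟨f, hf⟩ := f
  induction hf with
  | const c => exact ⟨∅, fun _ _ _ => rfl⟩
  | var i => exact ⟨{i}, fun _ _ h => h i (by simp)⟩
  | neg _ h => exact h.imp fun S hS p q k => congrArg (-·) (hS p q k)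
  | add _ _ h h' =>
    obtain ⟨S, hS⟩ := h
    obtain ⟨T, hT⟩ := h'
    classical
    exact ⟨S ∪ T, fun p q k => congrArg₂ (· + ·) (hS p q fun i hi => k i (by simp [hi]))
      (hT p q fun i hi => k i (by simp [hi]))⟩
  | sup _ _ h h' =>
    obtain ⟨S, hS⟩ := h
    obtain ⟨T, hT⟩ := h'
    classical
    exact ⟨S ∪ T, fun p q k => congrArg₂ (· ⊔ ·) (hS p q fun i hi => k i (by simp [hi]))
      (hT p q fun i hi => k i (by simp [hi]))⟩

noncomputable def V (f : GG I) : Finset I := (dep f).choose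

theorem upd [DecidableEq I] (f : GG I) {i : I} (h : i ∉ V f) (p : Ω I) (x : Λ) : f.1 (update p i x) = f.1 p :=
  (dep f).choose_spec _ _ fun _ hj => update_of_ne (by rintro rfl; exact h hj) _ _

theorem free [Uncountable I] (T T' : I → GG I) (S : Finset I) :
    ∃ i k, i ≠ k ∧ i ∉ S ∧ k ∉ S ∧ k ∉ V (T i) ∧ i ∉ V (T' k) := by
  classical
  have e := Infinite.natEmbedding I
  have : ((S : Set I) ∪ ⋃ n : ℕ, V (T (e n))).Countable :=
    S.countable_toSet.union (countable_iUnion fun _ => Finset.countable_toSet _)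
  obtain ⟨k, hk⟩ := (ne_univ_iff_exists_notMem ((S : Set I) ∪ ⋃ n : ℕ, V (T (e n)))).1
    fun e => not_countable_univ (e ▸ this)
  obtain ⟨_, ⟨n, rfl⟩, hn⟩ := Set.Infinite.exists_notMem_finset
    (infinite_range_of_injective e.injective) (insert k (S ∪ V (T' k)))
  simp only [mem_union, mem_iUnion, not_or, not_exists, Finset.mem_coe, Finset.mem_insert,
    Finset.mem_union] at hk hn
  exact ⟨e n, k, hn.1, hn.2.1, hk.1, hk.2 n, hn.2.2⟩

section R
variable {M : Type} [AddCommGroup M] [LinearOrder M] [IsOrderedAddMonoid M] [NoMaxOrder M]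
  (hd : Dv M) (π : Λ →+ M) (hπ : Monotone π) (ι : M → Λ) (hι : ∀ x, π (ι x) = x)
include hd hπ hι

omit [NoMaxOrder M] in
theorem pl [DecidableEq I] (f : GG I) (p : Ω I) (i : I) : PL fun x => π (f.1 (update p i (ι x))) := by
  obtain ⟨f, hf⟩ := f
  induction hf with
  | const c => simpa using PL.aff 0 (π c)
  | var j =>
    by_cases e : j = i
    · simpa [e, hι] using PL.aff 1 (0 : M)
    · simpa [e] using PL.aff 0 (π (p j))
  | neg _ h => simpa using h.neg
  | add _ _ h h' => simpa using h.add h'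
  | sup _ _ h h' => simpa [hπ.map_max] using h.sup hd h'

theorem rigid [Uncountable I] [DecidableEq I] (τ : GG I ≃ GG I) (P : Set (Ω I)) (S : Finset I) (hP : ∀ p ∈ P, ∀ i ∉ S, ∀ x, update p i x ∈ P)
    (loc : ∀ p ∈ P, ∀ u v : GG I, π (v.1 p) < π (u.1 p) → π ((τ v).1 p) ≤ π ((τ u).1 p))
    (f : GG I) (p : Ω I) (hp : p ∈ P) : π ((τ f).1 p) = π (f.1 p) + π ((τ 0).1 p) := by
  classical
  obtain ⟨i, k, h1, h2, h3, h4, h5⟩ := free (fun i => τ (X i)) (fun k => τ.symm (X k))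
    (S ∪ (V f ∪ V (τ f) ∪ (V 0 ∪ V (τ 0))))
  simp only [Finset.mem_union, not_or] at h2 h3
  have hA := pl hd π hπ ι hι (τ (X i)) p i
  have k1 : ∀ h, i ∉ V h → i ∉ V (τ h) →
      π ((τ (X i)).1 (update p i (ι (π (h.1 p))))) = π ((τ h).1 p) := fun h a b =>
    hA.eq hd (fun x hx => upd _ b p (ι x) ▸ loc _ (hP p hp i h2.1 _) _ _ (by
      simpa [upd _ a, X, hι] using hx)) fun x hx => upd _ b p (ι x) ▸ loc _ (hP p hp i h2.1 _) _ _
      (by simpa [upd _ a, X, hι] using hx)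
  have := hA.inv hd (pl hd π hπ ι hι (τ.symm (X k)) p k) (fun x y c => ?_) (fun x y c => ?_)
    (π (f.1 p))
  · rwa [k1 f h2.2.1.1 h2.2.1.2, show (0 : M) = π ((0 : GG I).1 p) from (map_zero π).symm,
      k1 0 h2.2.2.1 h2.2.2.2] at this
  · have := loc _ (hP _ (hP p hp i h2.1 (ι x)) k h3.1 (ι y)) (X i) (τ.symm (X k)) (by
      rw [update_comm h1, upd _ h5]; simpa [X, hι] using c)
    rw [upd _ h4] at this
    simpa [X, hι] using this
  · have := loc _ (hP _ (hP p hp i h2.1 (ι x)) k h3.1 (ι y)) (τ.symm (X k)) (X i) (by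
      rw [update_comm h1, upd _ h5]; simpa [X, hι] using c)
    rw [upd _ h4] at this
    simpa [X, hι] using this

omit hd hι [NoMaxOrder M] in
theorem local' (τ : GG I ≃o GG I) (hτ : ∀ u w, u ⊓ τ w ≤ τ u ⊔ w) (p : Ω I) (u v : GG I)
    (h : π (v.1 p) < π (u.1 p)) (h' : π ((τ u).1 p) < π ((τ v).1 p)) (n : ℕ) :
    n • (π (u.1 p) - π (v.1 p)) ≤ |π ((τ u).1 p) - π (u.1 p)| := by
  let P : GG I →+ M := AddMonoidHom.mk' (fun f => π (f.1 p)) fun f g => map_add π _ _
  have m : ∀ f g, f ≤ g → P f ≤ P g := fun f g h => hπ (h p)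
  have s : ∀ f g, P (f ⊔ g) = P f ⊔ P g := fun f g => hπ.map_max
  have i : ∀ f g, P (f ⊓ g) = P f ⊓ P g := fun f g => hπ.map_min
  change P v < P u at h
  change P (τ u) < P (τ v) at h'
  change n • (P u - P v) ≤ |P (τ u) - P u|
  have d : P ((u - v) ⊔ 0) = P u - P v := by simp [s, h.le]
  have a1 : v ≤ u ⊔ (v - n • ((u - v) ⊔ 0)) := fun q => by
    change v.1 q ≤ u.1 q ⊔ (v.1 q - n • ((u.1 q - v.1 q) ⊔ 0))
    rcases le_total (v.1 q) (u.1 q) with c | c <;> simp [c]
  have a2 : (u + n • ((u - v) ⊔ 0)) ⊓ (u ⊔ v) ≤ u := fun q => by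
    change (u.1 q + n • ((u.1 q - v.1 q) ⊔ 0)) ⊓ (u.1 q ⊔ v.1 q) ≤ u.1 q
    rcases le_total (v.1 q) (u.1 q) with c | c <;> simp [c]
  have b1 := m _ _ (τ.monotone a1)
  have b2 := m _ _ (τ.monotone a2)
  have b3 := m _ _ (hτ (u + n • ((u - v) ⊔ 0)) (v - n • ((u - v) ⊔ 0)))
  simp only [map_sup, map_inf, s, i, map_add, map_sub, map_nsmul, map_zero,
    sup_eq_left.2 (sub_nonneg.2 h.le), sup_eq_right.2 h'.le, le_sup_iff, inf_le_iff, h'.not_ge,
    false_or, or_false] at b1 b2 b3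
  rcases b3 with (c | c) | c | c
  · exact (le_sub_iff_add_le'.2 (c.trans b2)).trans (le_abs_self _)
  · exact absurd (b1.trans (c.trans b2)) h'.not_ge
  · have := (c.trans (sub_le_self _ (nsmul_nonneg (sub_nonneg.2 h.le) n))).trans h.le
    exact ((add_le_iff_nonpos_right _).1 this).trans (abs_nonneg _)
  · rw [abs_sub_comm]
    exact (le_sub_comm.1 ((h'.le.trans b1).trans c)).trans
      ((sub_le_sub_right h.le _).trans (le_abs_self _))

end R

def st : Λ →+ ℚ := AddMonoidHom.mk' (fun x => (ofLex x).1) fun _ _ => rfl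

theorem st_mono : Monotone st := fun _ _ => Prod.Lex.monotone_fst _ _

theorem dvQ : Dv ℚ := fun n hn c => ⟨c / n, by simp [mul_div_cancel₀, hn]⟩

theorem dvL : Dv Λ := fun n hn c => by
  obtain ⟨x, hx⟩ := dvQ n hn (ofLex c).1
  obtain ⟨y, hy⟩ := dvQ n hn (ofLex c).2
  exact ⟨toLex (x, y), Prod.ext hx hy⟩

theorem arch {x d : Λ} (hx : st x = 0) (hd : 0 < d) : ∃ n : ℕ, x < n • d := by
  rcases Prod.Lex.lt_iff.1 hd with h | h
  · exact ⟨1, by simpa using Prod.Lex.lt_iff.2 (Or.inl (hx.trans_lt h))⟩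
  · obtain ⟨n, hn⟩ := exists_lt_nsmul h.2 (ofLex x).2
    exact ⟨n, Prod.Lex.lt_iff.2 (Or.inr ⟨hx.trans (by
      change _ = n • (ofLex d).1
      rw [← h.1]; simp), hn⟩)⟩

theorem inf_inv_le {H : Type u} [Lattice H] [Group H] [MulLeftMono H] [MulRightMono H] (x : H) :
    x ⊓ x⁻¹ ≤ 1 := by
  have := inv_le_one'.2 (one_le_mabs x)
  rw [mabs, inv_sup, inv_inv, inf_comm] at this
  exact this

def Op (I : Type u) : Type u := GG I

theorem main [Uncountable I] (op : GG I → GG I → GG I) (h1 : ∀ x y z, op (op x y) z = op x (op y z))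
    (h2 : ∀ x, op 0 x = x ∧ op x 0 = x) (h3 : ∀ x, ∃ y, op x y = 0 ∧ op y x = 0)
    (h4 : ∀ a b c, a ≤ b → op c a ≤ op c b ∧ op a c ≤ op b c) (f g : GG I) : op f g = f + g := by
  classical
  choose inv h5 h6 using h3
  have key : ∀ g, op g (inv g) = 0 → g ⊓ inv g ≤ 0 := fun g _ => by
    letI : Lattice (Op I) := (inferInstance : Lattice (GG I))
    letI : Mul (Op I) := ⟨op⟩
    letI : One (Op I) := ⟨(0 : GG I)⟩
    letI : Inv (Op I) := ⟨inv⟩
    letI : Group (Op I) := Group.ofLeftAxioms h1 (fun x => (h2 x).1) h6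
    haveI : MulLeftMono (Op I) := ⟨fun c a b h => (h4 a b c h).1⟩
    haveI : MulRightMono (Op I) := ⟨fun c a b h => (h4 a b c h).2⟩
    exact inf_inv_le (H := Op I) g
  let τ : GG I → GG I ≃o GG I := fun g =>
    { toFun := op g
      invFun := op (inv g)
      left_inv := fun x => by rw [← h1, h6, (h2 x).1]
      right_inv := fun x => by rw [← h1, h5, (h2 x).1]
      map_rel_iff' := fun {a b} => ⟨fun h => by
        simpa [← h1, h6, (h2 _).1] using (h4 _ _ (inv g) h).1, fun h => (h4 _ _ g h).1⟩ }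
  have hτ : ∀ g u w, u ⊓ τ g w ≤ τ g u ⊔ w := fun g u w => by
    have a : u ≤ op (inv g) (τ g u ⊔ w) :=
      ((τ g).left_inv u).ge.trans (h4 _ _ (inv g) le_sup_left).1
    have b : τ g w ≤ op g (τ g u ⊔ w) := (h4 _ _ g le_sup_right).1
    generalize τ g u ⊔ w = c at a b
    have e : ∀ x y, op (op x y) (inv y) = x := fun x y => by rw [h1, h5, (h2 x).2]
    have := (h4 _ _ c ((le_inf ((h4 _ _ (inv c) (inf_le_right.trans b)).2.trans_eq (e _ _))
      ((h4 _ _ (inv c) (inf_le_left.trans a)).2.trans_eq (e _ _))).trans (key g (h5 g)))).2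
    rwa [h1, h6, (h2 _).2, (h2 _).1] at this
  have s1 : ∀ f g p, st ((op f g).1 p) = st (g.1 p) + st (f.1 p) := fun f g p => by
    have := rigid dvQ st st_mono (fun x => toLex (x, 0)) (fun _ => rfl) (τ f).toEquiv univ ∅
      (fun _ _ _ _ _ => trivial) (fun p _ u v h => not_lt.1 fun h' => ?_) g p trivial
    · exact this.trans (congrArg (fun x : GG I => _ + st (x.1 p)) (h2 f).2)
    obtain ⟨n, hn⟩ := exists_lt_nsmul (sub_pos.2 h) _
    exact hn.not_ge (local' st st_mono (τ f) (hτ f) p u v h h' n)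
  have s2 : ∀ f g p, st (f.1 p) = 0 → (op f g).1 p = g.1 p + f.1 p := fun f g p hp => by
    have := rigid dvL (AddMonoidHom.id Λ) monotone_id id (fun _ => rfl) (τ f).toEquiv
      {p | st (f.1 p) = 0} (V f) (fun p hp i hi x => by simpa [upd f hi] using hp)
      (fun p hp u v h => not_lt.1 fun h' => ?_) g p hp
    · exact this.trans (congrArg (fun x : GG I => _ + x.1 p) (h2 f).2)
    obtain ⟨n, hn⟩ := arch (x := |(op f u).1 p - u.1 p|) (by
      have : st ((op f u).1 p - u.1 p) = 0 := by rw [map_sub, s1, hp]; simp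
      rcases abs_choice ((op f u).1 p - u.1 p) with e | e <;> simp only [e, map_neg, this, neg_zero])
      (sub_pos.2 h)
    exact hn.not_ge (local' _ monotone_id (τ f) (hτ f) p u v h h' n)
  have s3 : ∀ f f' p, st (f.1 p) = st (f'.1 p) →
      (op f g).1 p - f.1 p = (op f' g).1 p - f'.1 p := fun f f' p hp => by
    have e : op (op f (inv f')) f' = f := by rw [h1, h6, (h2 _).2]
    have z : st ((op f (inv f')).1 p) = 0 := by simpa [e, hp] using s1 (op f (inv f')) f' p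
    have a := s2 _ f' p z
    have b := s2 _ (op f' g) p z
    rw [← h1] at b
    rw [e] at a b
    rw [b, a]; abel
  refine Subtype.ext (funext fun p => ?_)
  obtain ⟨i, k, k1, k2, -, k4, k5⟩ := free (fun i => op (X i) g) (fun i => op (X i) g)
    (V f ∪ V (op f g) ∪ V g)
  simp only [Finset.mem_union, not_or] at k2
  have hA := pl dvL (AddMonoidHom.id Λ) monotone_id id (fun _ => rfl) (op (X i) g) p i
  have s4 : ∀ x y, st x = st y → (op (X i) g).1 (update p i x) - x =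
      (op (X k) g).1 (update p k y) - y := fun x y h => by
    have := s3 (X i) (X k) (update (update p i x) k y) (by simpa [X, k1] using h)
    rw [upd _ k4, update_comm k1, upd _ k5] at this
    simpa [X, k1.symm] using this
  have s5 := hA.slope (fun u w hw n hn => ?_) (f.1 p)
  · have a := s3 f (X i) (update p i (f.1 p)) (by simp [X, upd f k2.1.1])
    have b := s3 (X i) 0 (update p i 0) (by simp [X])
    rw [(h2 g).1, upd _ k2.2] at b
    rw [upd _ k2.1.1, upd _ k2.1.2] at a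
    simp only [X, update_self, sub_left_inj, sub_zero, ZeroMemClass.coe_zero, Pi.zero_apply,
      AddMonoidHom.id_apply, id] at a b s5
    rw [a, s5, b]; rfl
  · have q : (0 : Λ) < toLex (0, 1) := Prod.Lex.lt_iff.2 (Or.inr ⟨rfl, one_pos⟩)
    have t1 := lt_min hw q
    have t2 : st (min w (toLex (0, 1))) = 0 :=
      le_antisymm (st_mono (min_le_right _ _)) (st_mono t1.le)
    have := (s4 (u + min w (toLex (0, 1))) u (by simp [t2])).trans (s4 u u rfl).symm
    simp only [AddMonoidHom.id_apply, id] at hn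
    rw [hn _ t1.le (min_le_left _ _), add_sub_add_comm, add_eq_left, sub_eq_zero] at this
    exact smul_left_injective ℤ t1.ne' (this.trans (one_smul _ _).symm)

theorem nonarch : ∃ a b : GG I, (∀ n : ℕ, n • a ≤ b) ∧ ¬a ≤ 0 :=
  ⟨⟨_, .const (toLex (0, 1))⟩, ⟨_, .const (toLex (1, 0))⟩, fun n _ =>
    (Prod.Lex.lt_iff.2 (Or.inl (show n • (0 : ℚ) < 1 by simp))).le,
    fun h => (show (0 : Λ) < toLex (0, 1) from Prod.Lex.lt_iff.2 (Or.inr ⟨rfl, one_pos⟩)).not_ge (h 0)⟩




/-- The terms of depth at most `n`. -/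
def lev (I : Type u) : ℕ → Set (Ω I → Λ)
  | 0 => (range fun (c : Λ) (_ : Ω I) => c) ∪ range fun (i : I) (p : Ω I) => p i
  | n + 1 => (lev I n ∪ image2 (· + ·) (lev I n) (lev I n)) ∪
      ((fun f => -f) '' lev I n ∪ image2 (· ⊔ ·) (lev I n) (lev I n))

open Cardinal in
theorem card_lev [Infinite I] (n : ℕ) : #(lev I n) ≤ #I := by
  have h0 : ℵ₀ ≤ #I := aleph0_le_mk I
  induction n with
  | zero =>
    refine (mk_union_le _ _).trans ((add_le_add ?_ mk_range_le).trans (add_eq_self h0).le)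
    refine le_trans ?_ h0
    haveI : Countable Λ := inferInstanceAs (Countable (ℚ × ℚ))
    exact (countable_range _).le_aleph0
  | succ n ih =>
    have a2 : ∀ f : (Ω I → Λ) → (Ω I → Λ) → (Ω I → Λ), #(image2 f (lev I n) (lev I n)) ≤ #I :=
      fun f => mk_image2_le.trans ((mul_le_mul' ih ih).trans (mul_eq_self h0).le)
    refine (mk_union_le _ _).trans ((add_le_add ?_ ?_).trans (add_eq_self h0).le)
    · exact (mk_union_le _ _).trans ((add_le_add ih (a2 _)).trans (add_eq_self h0).le)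
    · exact (mk_union_le _ _).trans
        ((add_le_add (mk_image_le.trans ih) (a2 _)).trans (add_eq_self h0).le)

theorem lev_succ (n : ℕ) : lev I n ⊆ lev I (n + 1) := fun _ h => Or.inl (Or.inl h)

theorem lev_mono : Monotone (lev I) := monotone_nat_of_le_succ lev_succ

theorem mem_lev {f : Ω I → Λ} (hf : Tm I f) : ∃ n, f ∈ lev I n := by
  induction hf with
  | const c => exact ⟨0, Or.inl ⟨c, rfl⟩⟩
  | var i => exact ⟨0, Or.inr ⟨i, rfl⟩⟩
  | add _ _ h h' =>
    obtain ⟨n, hn⟩ := h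
    obtain ⟨m, hm⟩ := h'
    exact ⟨max n m + 1, Or.inl (Or.inr (mem_image2_of_mem (lev_mono (le_max_left _ _) hn)
      (lev_mono (le_max_right _ _) hm)))⟩
  | neg _ h =>
    obtain ⟨n, hn⟩ := h
    exact ⟨n + 1, Or.inr (Or.inl ⟨_, hn, rfl⟩)⟩
  | sup _ _ h h' =>
    obtain ⟨n, hn⟩ := h
    obtain ⟨m, hm⟩ := h'
    exact ⟨max n m + 1, Or.inr (Or.inr (mem_image2_of_mem (lev_mono (le_max_left _ _) hn)
      (lev_mono (le_max_right _ _) hm)))⟩

open Cardinal in
theorem card_GG [Infinite I] : #(GG I) = #I := by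
  have h0 : ℵ₀ ≤ #I := aleph0_le_mk I
  apply le_antisymm
  · have h1 : ((GG I : Set (Ω I → Λ))) ⊆ ⋃ n : ULift.{u} ℕ, lev I n.down := fun f hf => by
      obtain ⟨n, hn⟩ := mem_lev hf
      exact mem_iUnion.2 ⟨⟨n⟩, hn⟩
    refine (mk_le_mk_of_subset h1).trans ((mk_iUnion_le _).trans ?_)
    refine (mul_le_mul' (b := #I) (d := #I) ?_ ?_).trans (mul_eq_self h0).le
    · simpa using h0
    · exact ciSup_le' fun n => card_lev n.down
  · refine mk_le_of_injective (f := fun i : I => (X i : GG I)) fun i j h => ?_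
    by_contra hne
    classical
    have := congrFun (congrArg Subtype.val h) (update 0 i (toLex (1, 0)))
    simp only [X, update_self, update_of_ne (Ne.symm hne), Pi.zero_apply] at this
    exact absurd (congrArg (fun x => (ofLex x).1) this) (by simp)

open Cardinal in
/-- For every uncountable cardinal `κ` (in every universe) there is an abelian lattice-ordered group
of cardinality exactly `κ` with a unique addition (every group operation with the same identity
that makes the same lattice a lattice-ordered group, commutative or not, is the given one) which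
is not archimedean: `0 ≤ n • a ≤ b` for all `n`, with `a` not `0`. -/
theorem result (κ : Cardinal.{u}) (hκ : ℵ₀ < κ) :
    ∃ (G : Type u) (_ : AddCommGroup G) (_ : Lattice G) (_ : AddLeftMono G) (_ : AddRightMono G),
      #G = κ ∧
      (∀ op : G → G → G,
          (∀ x y z : G, op (op x y) z = op x (op y z)) →
          (∀ x : G, op 0 x = x ∧ op x 0 = x) →
          (∀ x : G, ∃ y : G, op x y = 0 ∧ op y x = 0) →
          (∀ a b c : G, a ≤ b → op c a ≤ op c b ∧ op a c ≤ op b c) →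
          ∀ x y : G, op x y = x + y) ∧
      ∃ a b : G, (∀ n : ℕ, n • a ≤ b) ∧ 0 < a := by
  have hu : Uncountable κ.out := by
    rw [← aleph0_lt_mk_iff, mk_out]
    exact hκ
  have hi : Infinite κ.out := inferInstance
  refine ⟨GG κ.out, inferInstance, inferInstance, inferInstance, inferInstance, ?_, ?_, ?_⟩
  · rw [card_GG, mk_out]
  · exact fun op h1 h2 h3 h4 => main op h1 h2 h3 h4
  · refine ⟨⟨_, .const (toLex (0, 1))⟩, ⟨_, .const (toLex (1, 0))⟩, fun n _ =>
      (Prod.Lex.lt_iff.2 (Or.inl (show n • (0 : ℚ) < 1 by simp))).le, ?_⟩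
    have h01 : (0 : Λ) < toLex (0, 1) := Prod.Lex.lt_iff.2 (Or.inr ⟨rfl, one_pos⟩)
    refine lt_of_le_not_ge (fun _ => h01.le) fun h => h01.not_ge (h 0)

end Pool.Agent.Results.MP_1ad72b_al.AllUncountable
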